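import Pool.Agent.helper7.TW.SpecC

set_option autoImplicit false

open Finset Classical

namespace Pool.Agent.TW

theorem CN_aux (E : Type) [Fintype E] (M : ℕ) (Q : Finset E) (A : Finset (Fin M))
    (p : (E → Fin M) → Prop) [DecidablePred p] (hp : ∀ w, p w ↔ ∀ e ∈ Q, w e ∈ A) :
    ((univ : Finset (E → Fin M)).filter p).card * M ^ Q.card =
      A.card ^ Q.card * M ^ Fintype.card E := by
  have h1 : (univ : Finset (E → Fin M)).filter p =
      Fintype.piFinset (fun e => if e ∈ Q then A else univ) := by
    ext w
    rw [mem_filter, Fintype.mem_piFinset, hp]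
    constructor
    · rintro ⟨-, h⟩ e
      by_cases he : e ∈ Q
      · rw [if_pos he]; exact h e he
      · rw [if_neg he]; exact mem_univ _
    · intro h
      refine ⟨mem_univ _, fun e he => ?_⟩
      have := h e
      rwa [if_pos he] at this
  have h2 : ∀ e : E, (if e ∈ Q then A else univ).card = if e ∈ Q then A.card else M := by
    intro e
    by_cases he : e ∈ Q
    · rw [if_pos he, if_pos he]
    · rw [if_neg he, if_neg he]; simp
  rw [h1, Fintype.card_piFinset, Finset.prod_congr rfl (fun e _ => h2 e)]
  have h3 : ∏ e : E, (if e ∈ Q then M else 1) = M ^ Q.card := by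
    rw [Finset.prod_ite_mem, univ_inter, prod_const]
  have h4 : ∏ e : E, (if e ∈ Q then A.card else 1) = A.card ^ Q.card := by
    rw [Finset.prod_ite_mem, univ_inter, prod_const]
  have h5 : ∏ _e : E, M = M ^ Fintype.card E := by
    rw [prod_const]; rfl
  rw [← h3, ← h4, ← h5, ← prod_mul_distrib, ← prod_mul_distrib]
  refine prod_congr rfl fun e _ => ?_
  by_cases he : e ∈ Q
  · simp [he]
  · simp [he]

theorem CN : CN_stmt := by
  intro E _ M _ Q
  constructor
  · have := CN_aux E M Q {0} (fun w => ∀ e ∈ Q, w e = 0) (by intro w; simp)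
    rw [card_singleton, one_pow, one_mul] at this
    exact this
  · have := CN_aux E M Q (univ.erase 0) (fun w => ∀ e ∈ Q, w e ≠ 0) (by intro w; simp)
    rw [card_erase_of_mem (mem_univ _), card_univ, Fintype.card_fin] at this
    exact this

end Pool.Agent.TW
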